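import Pool.Agent.R550.GB.Graph

/-!
# Locating-dominating coalitions
-/

namespace Pool.Agent.R550.LC

variable {V : Type}

/-- `D` is a locating-dominating set of `G`: every vertex outside `D` has a neighbour in `D`, and any
two distinct vertices outside `D` have different sets of neighbours in `D`. -/
def IsLD (G : SimpleGraph V) (D : Set V) : Prop :=
  (∀ v, v ∉ D → ∃ u ∈ D, G.Adj v u) ∧
    ∀ u v, u ∉ D → v ∉ D → u ≠ v → G.neighborSet u ∩ D ≠ G.neighborSet v ∩ D

/-- The disjoint sets `X` and `Y` form an LD-coalition. -/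
def Coalition (G : SimpleGraph V) (X Y : Set V) : Prop :=
  Disjoint X Y ∧ ¬ IsLD G X ∧ ¬ IsLD G Y ∧ IsLD G (X ∪ Y)

/-- The colour classes of `c` form an LDC-partition of `G` with `k` (nonempty) parts. -/
def IsLDC (G : SimpleGraph V) (k : ℕ) (c : V → Fin k) : Prop :=
  Function.Surjective c ∧ (∀ i, ¬ IsLD G (c ⁻¹' {i})) ∧
    ∀ i, ∃ j, j ≠ i ∧ Coalition G (c ⁻¹' {i}) (c ⁻¹' {j})

/-- `C_L(G) ≥ k`: some LDC-partition of `G` has at least `k` parts. -/
def AtLeast (G : SimpleGraph V) (k : ℕ) : Prop :=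
  ∃ m, k ≤ m ∧ ∃ c : V → Fin m, IsLDC G m c

end Pool.Agent.R550.LC
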