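import Pool.Agent.R550.LC.Parts

/-!
# Two-colourings give LDC-partitions with eight parts
-/

namespace Pool.Agent.R550.LC

variable {V : Type} {G : SimpleGraph V} {N M : ℕ} {X : ℕ → List ℕ}

/-- The parts: `0` and `1` are the large ones. -/
def col (f : ℕ → Bool) (s : ℕ) (a : ℕ × ℕ) : ℕ :=
  if a.1 = 0 then
    (if a.2 < s then (if f a.2 then 0 else 1)
      else if a.2 = s then 2 else if a.2 = s + 1 then 3 else if a.2 = s + 2 then 4
      else if a.2 = s + 3 then 1 else if a.2 = s + 4 then 5 else if a.2 = s + 5 then 6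
      else if a.2 = s + 6 then 7 else 0)
  else if a.1 = 1 ∨ a.1 = 3 ∨ a.1 = 5 ∨ a.1 = 6 ∨ a.1 = 8 ∨ a.1 = 10 then 0 else 1

theorem col_lt (f : ℕ → Bool) (s : ℕ) (a : ℕ × ℕ) : col f s a < 8 := by
  unfold col
  split_ifs <;> norm_num

theorem Lab.mem_iff (L : Lab G N M X) {D : Set V} {P : ℕ × ℕ → Prop}
    (hD : ∀ v, v ∈ D ↔ P (L.lab v)) {t i : ℕ} (ht : t < 12) (hi : i < cnt N M t) :
    L.mem D t i ↔ P (t, i) := by
  constructor
  · rintro ⟨v, hv, hl⟩
    rw [← hl]
    exact (hD v).1 hv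
  · intro h
    obtain ⟨v, hv⟩ := L.sur t i ht hi
    exact ⟨v, (hD v).2 (by rw [hv]; exact h), hv⟩

theorem atLeast_of_colour (L : Lab G N M X) (hocc : ∀ x < N, ∃ e < M, x ∈ X e) {s m0 : ℕ}
    (hN : N = s + 8) (hM : M = m0 + 2) (hX1 : X m0 = [s, s + 1, s + 2, s + 3])
    (hX2 : X (m0 + 1) = [s + 4, s + 5, s + 6, s + 7]) (hlt : ∀ e < m0, ∀ x ∈ X e, x < s)
    {f : ℕ → Bool} (hf : ∀ e < m0, (∃ x ∈ X e, f x = true) ∧ ∃ x ∈ X e, f x = false) :
    AtLeast G 8 := by
  have hN2 : 2 ≤ N := by omega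
  let c : V → Fin 8 := fun v => ⟨col f s (L.lab v), col_lt _ _ _⟩
  have hc : ∀ (v : V) (i : Fin 8), v ∈ c ⁻¹' {i} ↔ col f s (L.lab v) = i := by
    intro v i
    rw [Set.mem_preimage, Set.mem_singleton_iff, Fin.ext_iff]
  -- the unions
  have hgood : ∀ i j : Fin 8, (i = 0 ∧ (j = 2 ∨ j = 3 ∨ j = 4)) ∨ (i = 1 ∧ (j = 5 ∨ j = 6 ∨ j = 7)) →
      IsLD G (c ⁻¹' {i} ∪ c ⁻¹' {j}) := by
    intro i j hij
    refine Lab.Good.ld (L := L) ?_ hN2 hocc
    have hD : ∀ v, v ∈ c ⁻¹' {i} ∪ c ⁻¹' {j} ↔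
        (fun a => col f s a = i ∨ col f s a = j) (L.lab v) := by
      intro v
      rw [Set.mem_union, hc, hc]
    have hX0 : ∀ e < M, ∃ x ∈ X e, x < N ∧ (col f s (0, x) = i ∨ col f s (0, x) = j) := by
      intro e he
      by_cases he0 : e < m0
      · obtain ⟨⟨x, hx, hfx⟩, ⟨y, hy, hfy⟩⟩ := hf e he0
        have hxs := hlt e he0 x hx
        have hys := hlt e he0 y hy
        rcases hij with ⟨rfl, -⟩ | ⟨rfl, -⟩
        · refine ⟨x, hx, by omega, Or.inl ?_⟩
          simp [col, hxs, hfx]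
        · refine ⟨y, hy, by omega, Or.inl ?_⟩
          simp [col, hys, hfy]
      · have he1 : e = m0 ∨ e = m0 + 1 := by omega
        rcases he1 with rfl | rfl
        · rw [hX1]
          rcases hij with ⟨rfl, rfl | rfl | rfl⟩ | ⟨rfl, -⟩
          · exact ⟨s, by simp, by omega, Or.inr (by simp [col])⟩
          · exact ⟨s + 1, by simp, by omega, Or.inr (by simp [col])⟩
          · exact ⟨s + 2, by simp, by omega, Or.inr (by simp [col])⟩
          · exact ⟨s + 3, by simp, by omega, Or.inl (by simp [col])⟩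
        · rw [hX2]
          rcases hij with ⟨rfl, -⟩ | ⟨rfl, rfl | rfl | rfl⟩
          · exact ⟨s + 7, by simp, by omega, Or.inl (by simp [col])⟩
          · exact ⟨s + 4, by simp, by omega, Or.inr (by simp [col])⟩
          · exact ⟨s + 5, by simp, by omega, Or.inr (by simp [col])⟩
          · exact ⟨s + 6, by simp, by omega, Or.inr (by simp [col])⟩
    constructor
    · intro t t' x htt hx
      obtain ⟨h1, h2, h3⟩ := pr_lt htt
      rw [L.mem_iff (P := fun a => col f s a = i ∨ col f s a = j) hD h1 hx,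
        L.mem_iff (P := fun a => col f s a = i ∨ col f s a = j) hD h2 (by rw [h3]; exact hx)]
      have hcol : col f s (t, x) = 0 ∧ col f s (t', x) = 1 := by
        unfold pr at htt
        simp only [List.mem_cons, Prod.mk.injEq, List.not_mem_nil, or_false] at htt
        rcases htt with ⟨rfl, rfl⟩ | ⟨rfl, rfl⟩ | ⟨rfl, rfl⟩ | ⟨rfl, rfl⟩ | ⟨rfl, rfl⟩ <;>
          simp [col]
      rcases hij with ⟨rfl, -⟩ | ⟨rfl, -⟩
      · exact Or.inl (Or.inl hcol.1)
      · exact Or.inr (Or.inl hcol.2)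
    · intro e he
      obtain ⟨x, hx, hxN, h⟩ := hX0 e he
      refine Or.inl ⟨x, hx, ?_⟩
      rw [L.mem_iff (P := fun a => col f s a = i ∨ col f s a = j) hD (by norm_num)
        (by rw [cnt_lo (by norm_num)]; exact hxN)]
      exact h
  -- the parts
  have hno : ∀ i : Fin 8, ¬ IsLD G (c ⁻¹' {i}) := by
    intro i hld
    have hg := L.good_of_ld hld
    have hD : ∀ v, v ∈ c ⁻¹' {i} ↔ (fun a => col f s a = i) (L.lab v) := fun v => hc v i
    have hm : ∀ t j, t < 12 → j < cnt N M t → (L.mem (c ⁻¹' {i}) t j ↔ col f s (t, j) = i) :=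
      fun t j h1 h2 => L.mem_iff (P := fun a => col f s a = i) hD h1 h2
    have hcl : ∀ x, s ≤ x → x < s + 8 → x < cnt N M 0 := fun x _ h => by
      rw [cnt_lo (by norm_num)]; omega
    have hch : ∀ e t, e < M → 5 < t → t < 12 → e < cnt N M t := fun e t h h1 h2 => by
      rw [cnt_hi h1 h2]; exact h
    by_cases h0 : i = 0
    · subst h0
      rcases hg.edge m0 (by omega) with ⟨x, hx, h⟩ | ⟨-, h⟩ | ⟨-, h⟩
      · rw [hX1] at hx
        simp only [List.mem_cons, List.not_mem_nil, or_false] at hx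
        rw [hm 0 x (by norm_num) (hcl x (by omega) (by omega))] at h
        rcases hx with rfl | rfl | rfl | rfl <;> simp [col] at h
      · rw [hm 9 _ (by norm_num) (hch _ _ (by omega) (by norm_num) (by norm_num))] at h
        simp [col] at h
      · rw [hm 11 _ (by norm_num) (hch _ _ (by omega) (by norm_num) (by norm_num))] at h
        simp [col] at h
    · by_cases h1 : i = 1
      · subst h1
        rcases hg.edge (m0 + 1) (by omega) with ⟨x, hx, h⟩ | ⟨h, -⟩ | ⟨h, -⟩
        · rw [hX2] at hx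
          simp only [List.mem_cons, List.not_mem_nil, or_false] at hx
          rw [hm 0 x (by norm_num) (hcl x (by omega) (by omega))] at h
          rcases hx with rfl | rfl | rfl | rfl <;> simp [col] at h
        · rw [hm 8 _ (by norm_num) (hch _ _ (by omega) (by norm_num) (by norm_num))] at h
          simp [col] at h
        · rw [hm 10 _ (by norm_num) (hch _ _ (by omega) (by norm_num) (by norm_num))] at h
          simp [col] at h
      · have hi0 : (i : ℕ) ≠ 0 := fun h => h0 (Fin.ext h)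
        have hi1 : (i : ℕ) ≠ 1 := fun h => h1 (Fin.ext h)
        have hlo : ∀ t, t < 5 → 0 < cnt N M t := fun t ht => by rw [cnt_lo ht]; omega
        rcases hg.twin 1 2 0 (by decide) (hlo 1 (by norm_num)) with h | h
        · rw [hm 1 0 (by norm_num) (hlo 1 (by norm_num))] at h
          simp only [col] at h
          norm_num at h
          omega
        · rw [hm 2 0 (by norm_num) (hlo 2 (by norm_num))] at h
          simp only [col] at h
          norm_num at h
          omega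
  have hdisj : ∀ i j : Fin 8, j ≠ i → Disjoint (c ⁻¹' {i}) (c ⁻¹' {j}) := by
    intro i j hij
    rw [Set.disjoint_left]
    intro v hv hv'
    rw [hc] at hv hv'
    exact hij (Fin.ext (hv'.symm.trans hv))
  refine ⟨8, le_rfl, c, ?_, hno, ?_⟩
  · intro i
    have hs : ∀ x, x < N → ∃ v, L.lab v = (0, x) := fun x hx =>
      L.sur 0 x (by norm_num) (by rw [cnt_lo (by norm_num)]; exact hx)
    have key : ∃ x < N, col f s (0, x) = i := by
      fin_cases i
      · exact ⟨s + 7, by omega, by simp [col]⟩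
      · exact ⟨s + 3, by omega, by simp [col]⟩
      · exact ⟨s, by omega, by simp [col]⟩
      · exact ⟨s + 1, by omega, by simp [col]⟩
      · exact ⟨s + 2, by omega, by simp [col]⟩
      · exact ⟨s + 4, by omega, by simp [col]⟩
      · exact ⟨s + 5, by omega, by simp [col]⟩
      · exact ⟨s + 6, by omega, by simp [col]⟩
    obtain ⟨x, hx, h⟩ := key
    obtain ⟨v, hv⟩ := hs x hx
    refine ⟨v, Fin.ext ?_⟩
    show col f s (L.lab v) = i
    rw [hv]
    exact h
  · intro i
    have hp : ∃ j, j ≠ i ∧ IsLD G (c ⁻¹' {i} ∪ c ⁻¹' {j}) := by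
      fin_cases i
      · exact ⟨2, by decide, hgood 0 2 (by decide)⟩
      · exact ⟨5, by decide, hgood 1 5 (by decide)⟩
      · exact ⟨0, by decide, by rw [Set.union_comm]; exact hgood 0 2 (by decide)⟩
      · exact ⟨0, by decide, by rw [Set.union_comm]; exact hgood 0 3 (by decide)⟩
      · exact ⟨0, by decide, by rw [Set.union_comm]; exact hgood 0 4 (by decide)⟩
      · exact ⟨1, by decide, by rw [Set.union_comm]; exact hgood 1 5 (by decide)⟩
      · exact ⟨1, by decide, by rw [Set.union_comm]; exact hgood 1 6 (by decide)⟩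
      · exact ⟨1, by decide, by rw [Set.union_comm]; exact hgood 1 7 (by decide)⟩
    obtain ⟨j, hj, hld⟩ := hp
    exact ⟨j, hj, hdisj i j hj, hno i, hno j, hld⟩

/-- The graph is connected. -/
theorem Lab.connected (L : Lab G N M X) (hlt : ∀ e < M, ∀ x ∈ X e, x < N)
    (hne : ∀ e < M, X e ≠ []) : G.Connected := by
  obtain ⟨z0, hz0⟩ := L.sur 5 0 (by norm_num) (by rw [cnt_mid]; norm_num)
  have hstep : ∀ {v w : V}, A X (L.lab w) (L.lab v) → G.Reachable z0 w → G.Reachable z0 v := by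
    intro v w h hw
    exact hw.trans ((L.adj' w v).2 h).reachable
  -- level one
  have l34 : ∀ v : V, (L.lab v).1 = 3 ∨ (L.lab v).1 = 4 → G.Reachable z0 v := by
    intro v hv
    refine hstep (w := z0) ?_ (SimpleGraph.Reachable.refl _)
    rw [hz0]
    exact Or.inr (T_iff.2 (Or.inl ⟨hv, Or.inl rfl⟩))
  have l012 : ∀ v : V, (L.lab v).1 = 0 ∨ (L.lab v).1 = 1 ∨ (L.lab v).1 = 2 → G.Reachable z0 v := by
    intro v hv
    have h2 := (L.val v).2
    rw [cnt_lo (by omega)] at h2
    obtain ⟨w, hw⟩ := L.sur 3 (L.lab v).2 (by norm_num) (by rw [cnt_lo (by norm_num)]; exact h2)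
    refine hstep (w := w) ?_ (l34 w (Or.inl (by rw [hw])))
    rw [hw, A_u (Or.inl rfl)]
    exact Or.inr ⟨hv, rfl⟩
  have l89 : ∀ v : V, (L.lab v).1 = 8 ∨ (L.lab v).1 = 9 → G.Reachable z0 v := by
    intro v hv
    have h2 := (L.val v).2
    rw [cnt_hi (by omega) (by omega)] at h2
    obtain ⟨x, hx⟩ := List.exists_mem_of_ne_nil _ (hne _ h2)
    obtain ⟨w, hw⟩ := L.sur 0 x (by norm_num) (by
      rw [cnt_lo (by norm_num)]; exact hlt _ h2 x hx)
    refine hstep (w := w) ?_ (l012 w (Or.inl (by rw [hw])))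
    rw [hw, A_x]
    exact Or.inr ⟨hv, hx⟩
  have l67 : ∀ v : V, (L.lab v).1 = 6 ∨ (L.lab v).1 = 7 → G.Reachable z0 v := by
    intro v hv
    have h2 := (L.val v).2
    rw [cnt_hi (by omega) (by omega)] at h2
    obtain ⟨w, hw⟩ := L.sur 8 (L.lab v).2 (by norm_num) (by
      rw [cnt_hi (by norm_num) (by norm_num)]; exact h2)
    refine hstep (w := w) ?_ (l89 w (Or.inl (by rw [hw])))
    rw [hw, A_U (Or.inl rfl)]
    exact Or.inl ⟨hv, rfl⟩
  have lW : ∀ v : V, (L.lab v).1 = 10 ∨ (L.lab v).1 = 11 → G.Reachable z0 v := by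
    intro v hv
    have h2 := (L.val v).2
    rw [cnt_hi (by omega) (by omega)] at h2
    obtain ⟨w, hw⟩ := L.sur 6 (L.lab v).2 (by norm_num) (by
      rw [cnt_hi (by norm_num) (by norm_num)]; exact h2)
    refine hstep (w := w) ?_ (l67 w (Or.inl (by rw [hw])))
    rw [hw, A_P (Or.inl rfl)]
    exact ⟨by omega, rfl⟩
  have all : ∀ v : V, G.Reachable z0 v := by
    intro v
    have h1 := (L.val v).1
    by_cases c1 : (L.lab v).1 = 3 ∨ (L.lab v).1 = 4
    · exact l34 v c1
    by_cases c2 : (L.lab v).1 = 0 ∨ (L.lab v).1 = 1 ∨ (L.lab v).1 = 2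
    · exact l012 v c2
    by_cases c3 : (L.lab v).1 = 8 ∨ (L.lab v).1 = 9
    · exact l89 v c3
    by_cases c4 : (L.lab v).1 = 6 ∨ (L.lab v).1 = 7
    · exact l67 v c4
    by_cases c5 : (L.lab v).1 = 10 ∨ (L.lab v).1 = 11
    · exact lW v c5
    · have c6 : (L.lab v).1 = 5 := by omega
      have h2 := (L.val v).2
      rw [c6, cnt_mid] at h2
      have h3 : v = z0 := by
        apply L.inj
        rw [hz0]
        exact Prod.ext c6 (by simp only; omega)
      rw [h3]
  have : Nonempty V := ⟨z0⟩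
  exact SimpleGraph.Connected.mk fun u v => (all u).symm.trans (all v)

end Pool.Agent.R550.LC
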