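import Pool.Agent.R550.LC.Eight
import Pool.Agent.R550.PS.Final

/-!
# Deciding whether the locating-dominating coalition number is at least eight is NP-hard
-/

namespace Pool.Agent.R550.LC

open Pool.Agent.NPC Pool.Agent.R550.GB Pool.Agent.R550.PS

/-- The hyperedges: the elements `a < 3 m` are the occurrences of literals, `3 m` is the constant
false and `3 m + 1` its partner. -/
def XF (φ : Fml) (e : ℕ) : List ℕ :=
  if e < 3 * φ.length * (3 * φ.length) then
    (if conf φ (e / (3 * φ.length)) (e % (3 * φ.length)) = true then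
      [e / (3 * φ.length), e % (3 * φ.length)] else [3 * φ.length, 3 * φ.length + 1])
  else if e < 3 * φ.length * (3 * φ.length) + φ.length then
    [3 * (e - 3 * φ.length * (3 * φ.length)), 3 * (e - 3 * φ.length * (3 * φ.length)) + 1,
      3 * (e - 3 * φ.length * (3 * φ.length)) + 2, 3 * φ.length]
  else if e = 3 * φ.length * (3 * φ.length) + φ.length then [3 * φ.length, 3 * φ.length + 1]
  else if e = 3 * φ.length * (3 * φ.length) + φ.length + 1 then
    [3 * φ.length + 2, 3 * φ.length + 2 + 1, 3 * φ.length + 2 + 2, 3 * φ.length + 2 + 3]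
  else [3 * φ.length + 2 + 4, 3 * φ.length + 2 + 5, 3 * φ.length + 2 + 6, 3 * φ.length + 2 + 7]

/-- The number of elements. -/
def nN (φ : Fml) : ℕ := 3 * φ.length + 2 + 8

/-- The number of hyperedges. -/
def nM (φ : Fml) : ℕ := 3 * φ.length * (3 * φ.length) + φ.length + 1 + 2

/-- The graph of a formula. -/
def redG (φ : Fml) : List (List ℕ) := mkL (blocks 12 (cnt (nN φ) (nM φ))) (T (XF φ))

theorem exists_Lab (φ : Fml) : Nonempty (Lab (graph (redG φ)) (nN φ) (nM φ) (XF φ)) := by
  obtain ⟨lab, h1, h2, h3, h4⟩ := exists_lab 12 (cnt (nN φ) (nM φ)) (T (XF φ))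
  exact ⟨⟨lab, h1, h2, h3, h4⟩⟩

theorem XF_pair {φ : Fml} {a b : ℕ} (ha : a < 3 * φ.length) (hb : b < 3 * φ.length)
    (h : conf φ a b = true) : a * (3 * φ.length) + b < 3 * φ.length * (3 * φ.length) ∧
      XF φ (a * (3 * φ.length) + b) = [a, b] := by
  have h1 : a * (3 * φ.length) + b < 3 * φ.length * (3 * φ.length) := by
    have := Nat.mul_le_mul_right (3 * φ.length) (show a + 1 ≤ 3 * φ.length from ha)
    rw [Nat.add_mul, one_mul] at this
    omega
  have h2 : (a * (3 * φ.length) + b) / (3 * φ.length) = a := by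
    rw [mul_comm, Nat.mul_add_div (by omega), Nat.div_eq_of_lt hb, Nat.add_zero]
  have h3 : (a * (3 * φ.length) + b) % (3 * φ.length) = b := by
    rw [mul_comm, Nat.mul_add_mod, Nat.mod_eq_of_lt hb]
  refine ⟨h1, ?_⟩
  unfold XF
  rw [if_pos h1, h2, h3, if_pos h]

theorem XF_clause {φ : Fml} {j : ℕ} (hj : j < φ.length) :
    XF φ (3 * φ.length * (3 * φ.length) + j) = [3 * j, 3 * j + 1, 3 * j + 2, 3 * φ.length] := by
  unfold XF
  rw [if_neg (by omega), if_pos (by omega), Nat.add_sub_cancel_left]

theorem XF_false (φ : Fml) : XF φ (3 * φ.length * (3 * φ.length) + φ.length) =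
    [3 * φ.length, 3 * φ.length + 1] := by
  unfold XF
  rw [if_neg (by omega), if_neg (by omega), if_pos rfl]

theorem XF_a (φ : Fml) : XF φ (3 * φ.length * (3 * φ.length) + φ.length + 1) =
    [3 * φ.length + 2, 3 * φ.length + 2 + 1, 3 * φ.length + 2 + 2, 3 * φ.length + 2 + 3] := by
  unfold XF
  rw [if_neg (by omega), if_neg (by omega), if_neg (by omega), if_pos rfl]

theorem XF_b (φ : Fml) : XF φ (3 * φ.length * (3 * φ.length) + φ.length + 1 + 1) =
    [3 * φ.length + 2 + 4, 3 * φ.length + 2 + 5, 3 * φ.length + 2 + 6, 3 * φ.length + 2 + 7] := by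
  unfold XF
  rw [if_neg (by omega), if_neg (by omega), if_neg (by omega), if_neg (by omega)]

theorem XF_len (φ : Fml) (e : ℕ) : (XF φ e).length ≤ 4 := by
  unfold XF
  split_ifs <;> simp

theorem XF_ne (φ : Fml) (e : ℕ) : XF φ e ≠ [] := by
  unfold XF
  split_ifs <;> simp

theorem XF_lt0 (φ : Fml) (e : ℕ) (he : e < 3 * φ.length * (3 * φ.length) + φ.length + 1) :
    ∀ x ∈ XF φ e, x < 3 * φ.length + 2 := by
  intro x hx
  unfold XF at hx
  split_ifs at hx with h1 h2 h3 h4 h5
  · have h6 : e / (3 * φ.length) < 3 * φ.length := Nat.div_lt_of_lt_mul h1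
    have h7 : 0 < 3 * φ.length := by
      rcases Nat.eq_zero_or_pos φ.length with h | h
      · rw [h] at h1; simp at h1
      · omega
    have h8 := Nat.mod_lt e h7
    simp only [List.mem_cons, List.not_mem_nil, or_false] at hx
    omega
  · simp only [List.mem_cons, List.not_mem_nil, or_false] at hx
    omega
  · simp only [List.mem_cons, List.not_mem_nil, or_false] at hx
    omega
  · simp only [List.mem_cons, List.not_mem_nil, or_false] at hx
    omega
  · omega
  · omega

theorem XF_lt (φ : Fml) : ∀ e < nM φ, ∀ x ∈ XF φ e, x < nN φ := by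
  intro e he x hx
  unfold nM at he
  unfold nN
  by_cases h : e < 3 * φ.length * (3 * φ.length) + φ.length + 1
  · have := XF_lt0 φ e h x hx
    omega
  · have h1 : e = 3 * φ.length * (3 * φ.length) + φ.length + 1 ∨
        e = 3 * φ.length * (3 * φ.length) + φ.length + 1 + 1 := by omega
    rcases h1 with rfl | rfl
    · rw [XF_a] at hx
      simp only [List.mem_cons, List.not_mem_nil, or_false] at hx
      omega
    · rw [XF_b] at hx
      simp only [List.mem_cons, List.not_mem_nil, or_false] at hx
      omega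

theorem XF_occ (φ : Fml) : ∀ x < nN φ, ∃ e < nM φ, x ∈ XF φ e := by
  intro x hx
  unfold nN at hx
  unfold nM
  by_cases h1 : x < 3 * φ.length
  · refine ⟨3 * φ.length * (3 * φ.length) + x / 3, by omega, ?_⟩
    rw [XF_clause (by omega)]
    simp only [List.mem_cons, List.not_mem_nil, or_false]
    omega
  · by_cases h2 : x < 3 * φ.length + 2
    · refine ⟨3 * φ.length * (3 * φ.length) + φ.length, by omega, ?_⟩
      rw [XF_false]
      simp only [List.mem_cons, List.not_mem_nil, or_false]
      omega
    · by_cases h3 : x < 3 * φ.length + 2 + 4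
      · refine ⟨3 * φ.length * (3 * φ.length) + φ.length + 1, by omega, ?_⟩
        rw [XF_a]
        simp only [List.mem_cons, List.not_mem_nil, or_false]
        omega
      · refine ⟨3 * φ.length * (3 * φ.length) + φ.length + 1 + 1, by omega, ?_⟩
        rw [XF_b]
        simp only [List.mem_cons, List.not_mem_nil, or_false]
        omega

theorem sat_of_occ {φ : Fml} {o : ℕ → Prop}
    (h1 : ∀ a b, a < 3 * φ.length → b < 3 * φ.length → conf φ a b = true → ¬ (o a ∧ o b))
    (h2 : ∀ j < φ.length, o (3 * j) ∨ o (3 * j + 1) ∨ o (3 * j + 2)) : SAT3 φ := by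
  classical
  have hval : ∀ a < 3 * φ.length, o a →
      decide (∃ b < 3 * φ.length, (litA φ b).2 = (litA φ a).2 ∧ (litA φ b).1 = true ∧ o b) =
        (litA φ a).1 := by
    intro a ha hoa
    cases hs : (litA φ a).1 with
    | true => exact decide_eq_true ⟨a, ha, rfl, hs, hoa⟩
    | false =>
      refine decide_eq_false ?_
      rintro ⟨b, hb, e1, e2, e3⟩
      refine h1 a b ha hb ?_ ⟨hoa, e3⟩
      unfold conf
      rw [hs, e2, e1]
      simp
  refine ⟨fun x => decide (∃ b < 3 * φ.length, (litA φ b).2 = x ∧ (litA φ b).1 = true ∧ o b), ?_⟩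
  intro c hc
  obtain ⟨j, hj, rfl⟩ := List.mem_iff_getElem.1 hc
  rcases h2 j hj with h | h | h
  · left
    have := hval _ (by omega) h
    rwa [litA0 hj] at this
  · right; left
    have := hval _ (by omega) h
    rwa [litA1 hj] at this
  · right; right
    have := hval _ (by omega) h
    rwa [litA2 hj] at this

theorem correct (φ : Fml) : SAT3 φ ↔ AtLeast (graph (redG φ)) 8 := by
  classical
  obtain ⟨L⟩ := exists_Lab φ
  constructor
  · rintro ⟨τ, hτ⟩
    refine atLeast_of_colour L (XF_occ φ) (s := 3 * φ.length + 2)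
      (m0 := 3 * φ.length * (3 * φ.length) + φ.length + 1) rfl rfl (XF_a φ) (XF_b φ)
      (fun e he => XF_lt0 φ e he)
      (f := fun x => if x < 3 * φ.length then decide (τ (litA φ x).2 = (litA φ x).1)
        else decide (x = 3 * φ.length + 1)) ?_
    have hF : (∃ x ∈ [3 * φ.length, 3 * φ.length + 1],
        (if x < 3 * φ.length then decide (τ (litA φ x).2 = (litA φ x).1)
          else decide (x = 3 * φ.length + 1)) = true) ∧
        ∃ x ∈ [3 * φ.length, 3 * φ.length + 1],
        (if x < 3 * φ.length then decide (τ (litA φ x).2 = (litA φ x).1)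
          else decide (x = 3 * φ.length + 1)) = false :=
      ⟨⟨3 * φ.length + 1, by simp, by simp⟩, ⟨3 * φ.length, by simp, by simp⟩⟩
    intro e he
    by_cases h1 : e < 3 * φ.length * (3 * φ.length)
    · unfold XF
      rw [if_pos h1]
      by_cases h2 : conf φ (e / (3 * φ.length)) (e % (3 * φ.length)) = true
      · rw [if_pos h2]
        have h6 : e / (3 * φ.length) < 3 * φ.length := Nat.div_lt_of_lt_mul h1
        have h7 : 0 < 3 * φ.length := by
          rcases Nat.eq_zero_or_pos φ.length with h | h
          · rw [h] at h1; simp at h1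
          · omega
        have h8 := Nat.mod_lt e h7
        unfold conf at h2
        simp only [Bool.and_eq_true, decide_eq_true_eq, bne_iff_ne, ne_eq] at h2
        obtain ⟨h3, h4⟩ := h2
        by_cases h5 : τ (litA φ (e / (3 * φ.length))).2 = (litA φ (e / (3 * φ.length))).1
        · refine ⟨⟨e / (3 * φ.length), by simp, by simp [h6, h5]⟩,
            ⟨e % (3 * φ.length), by simp, ?_⟩⟩
          rw [if_pos h8, decide_eq_false_iff_not, ← h3, h5]
          exact h4
        · refine ⟨⟨e % (3 * φ.length), by simp, ?_⟩,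
            ⟨e / (3 * φ.length), by simp, by simp [h6, h5]⟩⟩
          rw [if_pos h8, decide_eq_true_eq, ← h3]
          revert h4 h5
          generalize (litA φ (e / (3 * φ.length))).1 = p
          generalize (litA φ (e % (3 * φ.length))).1 = q
          generalize τ (litA φ (e / (3 * φ.length))).2 = r
          revert p q r
          decide
      · rw [if_neg h2]
        exact hF
    · by_cases h2 : e < 3 * φ.length * (3 * φ.length) + φ.length
      · obtain ⟨j, hj, rfl⟩ : ∃ j < φ.length, e = 3 * φ.length * (3 * φ.length) + j :=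
          ⟨e - 3 * φ.length * (3 * φ.length), by omega, by omega⟩
        rw [XF_clause hj]
        refine ⟨?_, ⟨3 * φ.length, by simp, by simp⟩⟩
        rcases hτ _ (List.getElem_mem hj) with h | h | h
        · refine ⟨3 * j, by simp, ?_⟩
          rw [if_pos (by omega), litA0 hj]
          exact decide_eq_true h
        · refine ⟨3 * j + 1, by simp, ?_⟩
          rw [if_pos (by omega), litA1 hj]
          exact decide_eq_true h
        · refine ⟨3 * j + 2, by simp, ?_⟩
          rw [if_pos (by omega), litA2 hj]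
          exact decide_eq_true h
      · have h3 : e = 3 * φ.length * (3 * φ.length) + φ.length := by omega
        rw [h3, XF_false]
        exact hF
  · intro h
    obtain ⟨f, hf⟩ := colour_of_atLeast L (by unfold nN; omega) (XF_occ φ) (XF_lt φ)
      (fun e _ => XF_len φ e) h
    refine sat_of_occ (o := fun a => ¬ (f a ↔ f (3 * φ.length))) ?_ ?_
    · intro a b ha hb hc hcon
      obtain ⟨h1, h2⟩ := XF_pair ha hb hc
      have h3 := hf (a * (3 * φ.length) + b) (by unfold nM; omega)
      rw [h2] at h3
      simp only [List.mem_cons, List.not_mem_nil, or_false, exists_eq_or_imp, exists_eq_left] at h3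
      tauto
    · intro j hj
      have h3 := hf (3 * φ.length * (3 * φ.length) + j) (by unfold nM; omega)
      rw [XF_clause hj] at h3
      simp only [List.mem_cons, List.not_mem_nil, or_false, exists_eq_or_imp, exists_eq_left] at h3
      tauto

theorem connected (φ : Fml) : (graph (redG φ)).Connected := by
  obtain ⟨L⟩ := exists_Lab φ
  exact L.connected (XF_lt φ) fun e _ => XF_ne φ e

section

variable {α : Type} [TEnc α]

theorem poly_XF {φ : α → Fml} {e : α → ℕ} (hφ : NPC.Poly φ) (he : NPC.Poly e) :
    NPC.Poly (fun x => XF (φ x) (e x)) := by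
  unfold XF
  have h1 : NPC.Poly (fun x => conf (φ x) (e x / (3 * (φ x).length))
      (e x % (3 * (φ x).length))) := poly_conf hφ (by fun_prop) (by fun_prop)
  fun_prop

theorem poly_T {φ : α → Fml} {a b : α → ℕ × ℕ} (hφ : NPC.Poly φ) (ha : NPC.Poly a)
    (hb : NPC.Poly b) : NPC.Poly (fun x => T (XF (φ x)) (a x) (b x)) := by
  unfold T
  have h1 : NPC.Poly (fun x => XF (φ x) (a x).2) := poly_XF hφ (NPC.Poly.snd ha)
  fun_prop

end

theorem poly_redG : NPC.Poly redG := by
  have hl : UPoly (fun φ : Fml => φ.length) := UPoly.length NPC.Poly.id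
  have h3 : UPoly (fun φ : Fml => 3 * φ.length) := UPoly.mul (UPoly.const 3) hl
  have hN : UPoly (fun φ : Fml => nN φ) :=
    UPoly.add (UPoly.add h3 (UPoly.const 2)) (UPoly.const 8)
  have hM : UPoly (fun φ : Fml => nM φ) :=
    UPoly.add (UPoly.add (UPoly.add (UPoly.mul h3 h3) hl) (UPoly.const 1)) (UPoly.const 2)
  have hblk : NPC.Poly (fun φ : Fml => blocks 12 (cnt (nN φ) (nM φ))) := by
    refine poly_blocks 12 fun t => ?_
    unfold cnt
    split_ifs
    · exact hN
    · exact UPoly.const 1
    · exact hM
    · exact UPoly.const 0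
  unfold redG
  exact poly_mkL (t := fun φ => T (XF φ)) hblk (poly_T (NPC.Poly.fst (NPC.Poly.fst NPC.Poly.id))
    (NPC.Poly.snd (NPC.Poly.fst NPC.Poly.id)) (NPC.Poly.snd NPC.Poly.id))

theorem hard : HardPr (fun A : List (List ℕ) => (graph A).Connected)
    (fun A => AtLeast (graph A) 8) :=
  hardPr_SAT3.trans poly_redG (fun φ _ => connected φ) (fun φ _ => correct φ)

end Pool.Agent.R550.LC
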