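import Pool.Agent.R550.LC.Defs

/-!
# The graph of a hypergraph and its locating-dominating sets
-/

namespace Pool.Agent.R550.LC

/-- The adjacencies. Blocks: `(0, x)` the elements, `(1, x)`, `(2, x)` and `(3, x)`, `(4, x)` the twins
of the element `x`, `(5, 0)` the centre, `(6, e)`, …, `(11, e)` the three pairs of twins of the
hyperedge `e`. -/
def T (X : ℕ → List ℕ) (a b : ℕ × ℕ) : Bool :=
  ((decide (a.1 = 3) || decide (a.1 = 4)) &&
    (decide (b.1 = 5) || ((decide (b.1 = 0) || decide (b.1 = 1) || decide (b.1 = 2)) &&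
      decide (a.2 = b.2)))) ||
  ((decide (a.1 = 6) || decide (a.1 = 7)) &&
    ((decide (b.1 = 8) || decide (b.1 = 9) || decide (b.1 = 10) || decide (b.1 = 11)) &&
      decide (a.2 = b.2))) ||
  ((decide (a.1 = 8) || decide (a.1 = 9)) && (decide (b.1 = 0) && decide (b.2 ∈ X a.2)))

theorem T_iff {X : ℕ → List ℕ} {a b : ℕ × ℕ} : T X a b = true ↔
    ((a.1 = 3 ∨ a.1 = 4) ∧ (b.1 = 5 ∨ ((b.1 = 0 ∨ b.1 = 1 ∨ b.1 = 2) ∧ a.2 = b.2))) ∨
    ((a.1 = 6 ∨ a.1 = 7) ∧ (b.1 = 8 ∨ b.1 = 9 ∨ b.1 = 10 ∨ b.1 = 11) ∧ a.2 = b.2) ∨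
    ((a.1 = 8 ∨ a.1 = 9) ∧ b.1 = 0 ∧ b.2 ∈ X a.2) := by
  unfold T
  simp only [Bool.or_eq_true, Bool.and_eq_true, decide_eq_true_eq, or_assoc]

/-- The sizes of the blocks. -/
def cnt (N M t : ℕ) : ℕ :=
  if t < 5 then N else if t = 5 then 1 else if t < 12 then M else 0

/-- `G` is the graph of the hypergraph with the elements `x < N` and the hyperedges `X e`, `e < M`. -/
structure Lab {V : Type} (G : SimpleGraph V) (N M : ℕ) (X : ℕ → List ℕ) where
  lab : V → ℕ × ℕ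
  inj : Function.Injective lab
  val : ∀ v, (lab v).1 < 12 ∧ (lab v).2 < cnt N M (lab v).1
  sur : ∀ t i, t < 12 → i < cnt N M t → ∃ v, lab v = (t, i)
  adj : ∀ u v, G.Adj u v ↔ u ≠ v ∧ (T X (lab u) (lab v) = true ∨ T X (lab v) (lab u) = true)

variable {V : Type} {G : SimpleGraph V} {N M : ℕ} {X : ℕ → List ℕ}

theorem T_irrefl (a : ℕ × ℕ) : ¬ T X a a = true := by
  rw [T_iff]
  rintro (⟨h1, h2⟩ | ⟨h1, h2, h3⟩ | ⟨h1, h2, h3⟩) <;> omega

theorem Lab.adj' (L : Lab G N M X) (u v : V) :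
    G.Adj u v ↔ T X (L.lab u) (L.lab v) = true ∨ T X (L.lab v) (L.lab u) = true := by
  rw [L.adj]
  constructor
  · exact fun h => h.2
  · intro h
    refine ⟨?_, h⟩
    rintro rfl
    exact T_irrefl _ (h.elim id id)

/-- `D` contains the vertex `(t, i)`. -/
def Lab.mem (L : Lab G N M X) (D : Set V) (t i : ℕ) : Prop := ∃ v ∈ D, L.lab v = (t, i)

/-- The pairs of twins. -/
def pr : List (ℕ × ℕ) := [(1, 2), (3, 4), (6, 7), (8, 9), (10, 11)]

/-- twins have the same neighbours -/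
theorem T_twin {t t' i : ℕ} (h : (t, t') ∈ pr) (y : ℕ × ℕ) :
    (T X (t, i) y = true ∨ T X y (t, i) = true) ↔ (T X (t', i) y = true ∨ T X y (t', i) = true) := by
  simp only [T_iff]
  unfold pr at h
  simp only [List.mem_cons, Prod.mk.injEq, List.not_mem_nil, or_false] at h
  rcases h with ⟨rfl, rfl⟩ | ⟨rfl, rfl⟩ | ⟨rfl, rfl⟩ | ⟨rfl, rfl⟩ | ⟨rfl, rfl⟩ <;> simp

/-- the condition for locating-dominating sets -/
structure Lab.Good (L : Lab G N M X) (D : Set V) : Prop where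
  twin : ∀ t t' i, (t, t') ∈ pr → i < cnt N M t → L.mem D t i ∨ L.mem D t' i
  edge : ∀ e < M, (∃ x ∈ X e, L.mem D 0 x) ∨ (L.mem D 8 e ∧ L.mem D 9 e) ∨
    (L.mem D 10 e ∧ L.mem D 11 e)

theorem Lab.mem_of (L : Lab G N M X) {D : Set V} {v : V} {t i : ℕ} (h : L.mem D t i)
    (hv : L.lab v = (t, i)) : v ∈ D := by
  obtain ⟨u, hu, h⟩ := h
  rwa [← L.inj (h.trans hv.symm)]

theorem pr_lt {t t' : ℕ} (h : (t, t') ∈ pr) : t < 12 ∧ t' < 12 ∧
    ∀ N M, cnt N M t' = cnt N M t := by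
  unfold pr at h
  simp only [List.mem_cons, Prod.mk.injEq, List.not_mem_nil, or_false] at h
  rcases h with ⟨rfl, rfl⟩ | ⟨rfl, rfl⟩ | ⟨rfl, rfl⟩ | ⟨rfl, rfl⟩ | ⟨rfl, rfl⟩ <;> simp [cnt]

/-- locating-dominating sets satisfy the condition -/
theorem Lab.good_of_ld (L : Lab G N M X) {D : Set V} (h : IsLD G D) : L.Good D := by
  constructor
  · intro t t' i htt hi
    by_contra hcon
    push Not at hcon
    obtain ⟨h1, h2, h3⟩ := pr_lt htt
    obtain ⟨u, hu⟩ := L.sur t i h1 hi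
    obtain ⟨v, hv⟩ := L.sur t' i h2 (by rw [h3]; exact hi)
    have hne : u ≠ v := by
      rintro rfl
      rw [hu] at hv
      have := (Prod.mk.inj hv).1
      subst this
      revert htt
      unfold pr
      simp only [List.mem_cons, Prod.mk.injEq, List.not_mem_nil, or_false]
      omega
    refine h.2 u v (fun h => hcon.1 ⟨u, h, hu⟩) (fun h => hcon.2 ⟨v, h, hv⟩) hne ?_
    congr 1
    ext z
    rw [SimpleGraph.mem_neighborSet, SimpleGraph.mem_neighborSet, L.adj', L.adj', hu, hv]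
    exact T_twin htt _
  · intro e he
    by_contra hcon
    push Not at hcon
    obtain ⟨h0, h8, h10⟩ := hcon
    have hc : ∀ t, 5 < t → t < 12 → e < cnt N M t := by
      intro t h1 h2
      unfold cnt
      rw [if_neg (by omega), if_neg (by omega), if_pos h2]
      exact he
    have hu : ∃ u, u ∉ D ∧ (L.lab u = (8, e) ∨ L.lab u = (9, e)) := by
      obtain ⟨u, hu⟩ := L.sur 8 e (by norm_num) (hc 8 (by norm_num) (by norm_num))
      obtain ⟨u', hu'⟩ := L.sur 9 e (by norm_num) (hc 9 (by norm_num) (by norm_num))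
      by_cases hD : u ∈ D
      · exact ⟨u', fun h => h8 ⟨u, hD, hu⟩ ⟨u', h, hu'⟩, Or.inr hu'⟩
      · exact ⟨u, hD, Or.inl hu⟩
    have hw : ∃ u, u ∉ D ∧ (L.lab u = (10, e) ∨ L.lab u = (11, e)) := by
      obtain ⟨u, hu⟩ := L.sur 10 e (by norm_num) (hc 10 (by norm_num) (by norm_num))
      obtain ⟨u', hu'⟩ := L.sur 11 e (by norm_num) (hc 11 (by norm_num) (by norm_num))
      by_cases hD : u ∈ D
      · exact ⟨u', fun h => h10 ⟨u, hD, hu⟩ ⟨u', h, hu'⟩, Or.inr hu'⟩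
      · exact ⟨u, hD, Or.inl hu⟩
    obtain ⟨u, huD, hu⟩ := hu
    obtain ⟨w, hwD, hw⟩ := hw
    have hne : u ≠ w := by
      rintro rfl
      rcases hu with hu | hu <;> rcases hw with hw | hw <;> rw [hu] at hw <;> cases hw
    refine h.2 u w huD hwD hne ?_
    ext z
    simp only [Set.mem_inter_iff, SimpleGraph.mem_neighborSet, L.adj']
    constructor
    · rintro ⟨h1, h2⟩
      refine ⟨?_, h2⟩
      have h3 : ¬ ((L.lab z).1 = 0 ∧ (L.lab z).2 ∈ X e) := by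
        rintro ⟨h3, h4⟩
        exact h0 _ h4 ⟨z, h2, Prod.ext h3 rfl⟩
      rcases hu with hu | hu <;> rcases hw with hw | hw <;> rw [hu] at h1 <;> rw [hw] <;>
        simp only [T_iff] at h1 ⊢ <;> simp at h1 ⊢ <;> tauto
    · rintro ⟨h1, h2⟩
      refine ⟨?_, h2⟩
      rcases hu with hu | hu <;> rcases hw with hw | hw <;> rw [hw] at h1 <;> rw [hu] <;>
        simp only [T_iff] at h1 ⊢ <;> simp at h1 ⊢ <;> tauto

end Pool.Agent.R550.LC
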