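import Pool.Agent.R550.LC.Suff

/-!
# LDC-partitions and two-colourings
-/

namespace Pool.Agent.R550.LC

variable {V : Type} {G : SimpleGraph V} {N M : ℕ} {X : ℕ → List ℕ}

/-- Two disjoint locating-dominating sets give a proper two-colouring. -/
theorem Lab.Good.colour {L : Lab G N M X} {D D' : Set V} (h : L.Good D) (h' : L.Good D')
    (hd : Disjoint D D') :
    ∃ f : ℕ → Prop, ∀ e < M, (∃ x ∈ X e, f x) ∧ ∃ x ∈ X e, ¬ f x := by
  have hdis : ∀ t i, L.mem D t i → L.mem D' t i → False := by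
    rintro t i ⟨v, hv, hl⟩ hm
    exact Set.disjoint_left.1 hd hv (L.mem_of hm hl)
  have one : ∀ {D D' : Set V}, L.Good D → L.Good D' →
      (∀ t i, L.mem D t i → L.mem D' t i → False) → ∀ e < M, ∃ x ∈ X e, L.mem D 0 x := by
    intro D D' h h' hdis e he
    have hc : ∀ t, 5 < t → t < 12 → e < cnt N M t := fun t h1 h2 => by
      rw [cnt_hi h1 h2]; exact he
    rcases h.edge e he with h1 | ⟨h1, h2⟩ | ⟨h1, h2⟩
    · exact h1
    · rcases h'.twin 8 9 e (by decide) (hc 8 (by norm_num) (by norm_num)) with h3 | h3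
      · exact (hdis _ _ h1 h3).elim
      · exact (hdis _ _ h2 h3).elim
    · rcases h'.twin 10 11 e (by decide) (hc 10 (by norm_num) (by norm_num)) with h3 | h3
      · exact (hdis _ _ h1 h3).elim
      · exact (hdis _ _ h2 h3).elim
  refine ⟨fun x => L.mem D 0 x, fun e he => ⟨one h h' hdis e he, ?_⟩⟩
  obtain ⟨x, hx, hm⟩ := one h' h (fun t i h1 h2 => hdis t i h2 h1) e he
  exact ⟨x, hx, fun h3 => hdis 0 x h3 hm⟩

/-- If `D` is not locating-dominating, then at most six vertices are needed to meet all the sets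
that complete it. -/
theorem Lab.hit (L : Lab G N M X) (hN : 2 ≤ N) (hocc : ∀ x < N, ∃ e < M, x ∈ X e)
    (hlt : ∀ e < M, ∀ x ∈ X e, x < N) (hlen : ∀ e < M, (X e).length ≤ 4)
    {D : Set V} (h : ¬ IsLD G D) : ∃ R : List V, R.length ≤ 6 ∧ (∀ v ∈ R, v ∉ D) ∧
      ∀ Y : Set V, IsLD G (D ∪ Y) → ∃ v ∈ R, v ∈ Y := by
  classical
  have hng : ¬ L.Good D := fun hg => h (hg.ld hN hocc)
  by_cases htw : ∀ t t' i, (t, t') ∈ pr → i < cnt N M t → L.mem D t i ∨ L.mem D t' i
  · -- an edge condition fails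
    have hed : ∃ e < M, ¬ ((∃ x ∈ X e, L.mem D 0 x) ∨ (L.mem D 8 e ∧ L.mem D 9 e) ∨
        (L.mem D 10 e ∧ L.mem D 11 e)) := by
      by_contra hcon
      push Not at hcon
      apply hng
      refine ⟨htw, fun e he => ?_⟩
      by_contra h1
      push Not at h1
      obtain ⟨h2, h3, h4⟩ := h1
      rcases hcon e he with h5
      tauto
    obtain ⟨e, he, hne⟩ := hed
    push Not at hne
    obtain ⟨h0, h8, h10⟩ := hne
    have hc : ∀ t, 5 < t → t < 12 → e < cnt N M t := fun t h1 h2 => by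
      rw [cnt_hi h1 h2]; exact he
    have pick : ∀ t t', 5 < t → t < 12 → 5 < t' → t' < 12 → (L.mem D t e → ¬ L.mem D t' e) →
        ∃ u, u ∉ D ∧ (L.lab u = (t, e) ∨ L.lab u = (t', e)) := by
      intro t t' h1 h2 h3 h4 h5
      obtain ⟨u, hu⟩ := L.sur t e h2 (hc t h1 h2)
      obtain ⟨u', hu'⟩ := L.sur t' e h4 (hc t' h3 h4)
      by_cases hD : u ∈ D
      · exact ⟨u', fun h => h5 ⟨u, hD, hu⟩ ⟨u', h, hu'⟩, Or.inr hu'⟩
      · exact ⟨u, hD, Or.inl hu⟩
    obtain ⟨u, huD, hu⟩ := pick 8 9 (by norm_num) (by norm_num) (by norm_num) (by norm_num) h8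
    obtain ⟨w, hwD, hw⟩ := pick 10 11 (by norm_num) (by norm_num) (by norm_num) (by norm_num) h10
    have hx : ∀ x : ℕ, ∃ v : V, x ∈ X e → L.lab v = (0, x) := by
      intro x
      by_cases hxe : x ∈ X e
      · obtain ⟨v, hv⟩ := L.sur 0 x (by norm_num) (by
          rw [cnt_lo (by norm_num)]; exact hlt e he x hxe)
        exact ⟨v, fun _ => hv⟩
      · exact ⟨u, fun h => absurd h hxe⟩
    choose g hg using hx
    refine ⟨u :: w :: (X e).map g, ?_, ?_, ?_⟩
    · have := hlen e he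
      simp only [List.length_cons, List.length_map]
      omega
    · intro v hv
      rcases List.mem_cons.1 hv with rfl | hv
      · exact huD
      · rcases List.mem_cons.1 hv with rfl | hv
        · exact hwD
        · obtain ⟨x, hx, rfl⟩ := List.mem_map.1 hv
          intro h1
          exact h0 x hx ⟨_, h1, hg x hx⟩
    · intro Y hY
      have hgY := L.good_of_ld hY
      rcases hgY.edge e he with ⟨x, hx, hm⟩ | ⟨h1, h2⟩ | ⟨h1, h2⟩
      · refine ⟨g x, by simp only [List.mem_cons, List.mem_map]; exact Or.inr (Or.inr ⟨x, hx, rfl⟩),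
          ?_⟩
        rcases L.mem_of hm (hg x hx) with h3 | h3
        · exact (h0 x hx ⟨_, h3, hg x hx⟩).elim
        · exact h3
      · refine ⟨u, by simp, ?_⟩
        have : u ∈ D ∪ Y := by
          rcases hu with hu | hu
          · exact L.mem_of h1 hu
          · exact L.mem_of h2 hu
        exact this.resolve_left huD
      · refine ⟨w, by simp, ?_⟩
        have : w ∈ D ∪ Y := by
          rcases hw with hw | hw
          · exact L.mem_of h1 hw
          · exact L.mem_of h2 hw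
        exact this.resolve_left hwD
  · push Not at htw
    obtain ⟨t, t', i, htt, hi, h1, h2⟩ := htw
    obtain ⟨h3, h4, h5⟩ := pr_lt htt
    obtain ⟨u, hu⟩ := L.sur t i h3 hi
    obtain ⟨w, hw⟩ := L.sur t' i h4 (by rw [h5]; exact hi)
    have huD : u ∉ D := fun h => h1 ⟨u, h, hu⟩
    have hwD : w ∉ D := fun h => h2 ⟨w, h, hw⟩
    refine ⟨[u, w], by simp, ?_, ?_⟩
    · intro v hv
      simp only [List.mem_cons, List.not_mem_nil, or_false] at hv
      rcases hv with rfl | rfl
      · exact huD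
      · exact hwD
    · intro Y hY
      rcases (L.good_of_ld hY).twin t t' i htt hi with h6 | h6
      · exact ⟨u, by simp, (L.mem_of h6 hu).resolve_left huD⟩
      · exact ⟨w, by simp, (L.mem_of h6 hw).resolve_left hwD⟩

/-- A graph without isolated vertices and without disjoint edges on at least four vertices is a
star. -/
theorem exists_centre {n : ℕ} (hn : 4 ≤ n) {E : Fin n → Fin n → Prop}
    (hsym : ∀ i j, E i j → E j i) (hirr : ∀ i, ¬ E i i) (hiso : ∀ i, ∃ j, E i j)
    (hdis : ∀ i j i' j', E i j → E i' j' → i = i' ∨ i = j' ∨ j = i' ∨ j = j') :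
    ∃ s, ∀ j, j ≠ s → E s j := by
  obtain ⟨i0, j0, h0⟩ : ∃ i j, E i j := ⟨⟨0, by omega⟩, hiso _⟩
  have hne : i0 ≠ j0 := by rintro rfl; exact hirr _ h0
  obtain ⟨a, ha1, ha2⟩ : ∃ a : Fin n, a ≠ i0 ∧ a ≠ j0 := by
    have : ∃ a : Fin n, a ∉ ({i0, j0} : Finset (Fin n)) := by
      by_contra hcon
      push Not at hcon
      have h1 : (Finset.univ : Finset (Fin n)) ⊆ {i0, j0} := fun x _ => hcon x
      have h2 := Finset.card_le_card h1
      rw [Finset.card_univ, Fintype.card_fin] at h2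
      have h3 := Finset.card_le_two (a := i0) (b := j0)
      omega
    obtain ⟨a, ha⟩ := this
    simp only [Finset.mem_insert, Finset.mem_singleton, not_or] at ha
    exact ⟨a, ha⟩
  -- rename so that the centre is `s`
  have main : ∀ s t : Fin n, E s t → a ≠ s → a ≠ t → E a s → ∀ j, j ≠ s → E s j := by
    intro s t hst has hat hE j hj
    by_cases h1 : j = t
    · rw [h1]; exact hst
    by_cases h2 : j = a
    · rw [h2]; exact hsym _ _ hE
    obtain ⟨b, hb⟩ := hiso j
    have hts : t ≠ s := by rintro rfl; exact hirr _ hst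
    have h3 := hdis _ _ _ _ hst hb
    have h4 := hdis _ _ _ _ hE hb
    have h5 : b = s := by
      rcases h3 with h3 | h3 | h3 | h3
      · exact absurd h3.symm hj
      · exact h3.symm
      · exact absurd h3.symm h1
      · rcases h4 with h4 | h4 | h4 | h4
        · exact absurd h4.symm h2
        · exact absurd (h4.trans h3.symm) hat
        · exact absurd h4.symm hj
        · exact h4.symm
    rw [h5] at hb
    exact hsym _ _ hb
  obtain ⟨a', ha'⟩ := hiso a
  rcases hdis _ _ _ _ h0 ha' with h1 | h1 | h1 | h1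
  · exact absurd h1.symm ha1
  · exact ⟨i0, main i0 j0 h0 ha1 ha2 (by rw [h1]; exact ha')⟩
  · exact absurd h1.symm ha2
  · exact ⟨j0, main j0 i0 (hsym _ _ h0) ha2 ha1 (by rw [h1]; exact ha')⟩

/-- An LDC-partition with at least eight parts gives a proper two-colouring. -/
theorem colour_of_atLeast (L : Lab G N M X) (hN : 2 ≤ N) (hocc : ∀ x < N, ∃ e < M, x ∈ X e)
    (hlt : ∀ e < M, ∀ x ∈ X e, x < N) (hlen : ∀ e < M, (X e).length ≤ 4)
    (h : AtLeast G 8) : ∃ f : ℕ → Prop, ∀ e < M, (∃ x ∈ X e, f x) ∧ ∃ x ∈ X e, ¬ f x := by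
  classical
  obtain ⟨m, hm, c, -, hno, hpar⟩ := h
  have hsym : ∀ i j, (i ≠ j ∧ IsLD G (c ⁻¹' {i} ∪ c ⁻¹' {j})) →
      (j ≠ i ∧ IsLD G (c ⁻¹' {j} ∪ c ⁻¹' {i})) := by
    rintro i j ⟨h1, h2⟩
    exact ⟨h1.symm, by rwa [Set.union_comm]⟩
  by_cases hdis : ∀ i j i' j', (i ≠ j ∧ IsLD G (c ⁻¹' {i} ∪ c ⁻¹' {j})) →
      (i' ≠ j' ∧ IsLD G (c ⁻¹' {i'} ∪ c ⁻¹' {j'})) → i = i' ∨ i = j' ∨ j = i' ∨ j = j'
  · exfalso
    obtain ⟨s, hs⟩ := exists_centre (show 4 ≤ m by omega) hsym (fun i h => h.1 rfl)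
      (fun i => by
        obtain ⟨j, hji, -, -, -, hld⟩ := hpar i
        exact ⟨j, hji.symm, hld⟩) hdis
    obtain ⟨R, hR, hRs, hRY⟩ := L.hit hN hocc hlt hlen (hno s)
    have h1 : (Finset.univ : Finset (Fin m)).erase s ⊆ (R.map c).toFinset := by
      intro j hj
      have hjs := Finset.ne_of_mem_erase hj
      obtain ⟨v, hv, hvj⟩ := hRY _ (hs j hjs).2
      rw [List.mem_toFinset, List.mem_map]
      exact ⟨v, hv, hvj⟩
    have h2 := Finset.card_le_card h1
    rw [Finset.card_erase_of_mem (Finset.mem_univ _), Finset.card_univ, Fintype.card_fin] at h2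
    have h3 := (R.map c).toFinset_card_le
    rw [List.length_map] at h3
    omega
  · push Not at hdis
    obtain ⟨i, j, i', j', ⟨-, h1⟩, ⟨-, h2⟩, h3, h4, h5, h6⟩ := hdis
    refine (L.good_of_ld h1).colour (L.good_of_ld h2) ?_
    rw [Set.disjoint_left]
    rintro v (hv | hv) (hv' | hv') <;>
      simp only [Set.mem_preimage, Set.mem_singleton_iff] at hv hv'
    · exact h3 (hv.symm.trans hv')
    · exact h4 (hv.symm.trans hv')
    · exact h5 (hv.symm.trans hv')
    · exact h6 (hv.symm.trans hv')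

end Pool.Agent.R550.LC
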