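import Pool.Agent.R550.LC.Main

/-!
# Sets satisfying the condition are locating-dominating
-/

namespace Pool.Agent.R550.LC

variable {V : Type} {G : SimpleGraph V} {N M : ℕ} {X : ℕ → List ℕ}

/-- Adjacency of labels. -/
def A (X : ℕ → List ℕ) (a b : ℕ × ℕ) : Prop := T X a b = true ∨ T X b a = true

theorem A_p {t x : ℕ} (h : t = 1 ∨ t = 2) (b : ℕ × ℕ) :
    A X (t, x) b ↔ (b.1 = 3 ∨ b.1 = 4) ∧ b.2 = x := by
  unfold A
  simp only [T_iff]
  rcases h with rfl | rfl <;> simp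

theorem A_u {t x : ℕ} (h : t = 3 ∨ t = 4) (b : ℕ × ℕ) :
    A X (t, x) b ↔ b.1 = 5 ∨ ((b.1 = 0 ∨ b.1 = 1 ∨ b.1 = 2) ∧ b.2 = x) := by
  unfold A
  simp only [T_iff]
  rcases h with rfl | rfl <;> simp <;> omega

theorem A_P {t e : ℕ} (h : t = 6 ∨ t = 7) (b : ℕ × ℕ) :
    A X (t, e) b ↔ (b.1 = 8 ∨ b.1 = 9 ∨ b.1 = 10 ∨ b.1 = 11) ∧ b.2 = e := by
  unfold A
  simp only [T_iff]
  rcases h with rfl | rfl <;> simp <;> omega

theorem A_W {t e : ℕ} (h : t = 10 ∨ t = 11) (b : ℕ × ℕ) :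
    A X (t, e) b ↔ (b.1 = 6 ∨ b.1 = 7) ∧ b.2 = e := by
  unfold A
  simp only [T_iff]
  rcases h with rfl | rfl <;> simp

theorem A_U {t e : ℕ} (h : t = 8 ∨ t = 9) (b : ℕ × ℕ) :
    A X (t, e) b ↔ ((b.1 = 6 ∨ b.1 = 7) ∧ b.2 = e) ∨ (b.1 = 0 ∧ b.2 ∈ X e) := by
  unfold A
  simp only [T_iff]
  rcases h with rfl | rfl <;> simp [or_comm]

theorem A_x {x : ℕ} (b : ℕ × ℕ) :
    A X (0, x) b ↔ ((b.1 = 3 ∨ b.1 = 4) ∧ b.2 = x) ∨ ((b.1 = 8 ∨ b.1 = 9) ∧ x ∈ X b.2) := by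
  unfold A
  simp only [T_iff]
  simp

theorem cnt_lo {t : ℕ} (h : t < 5) : cnt N M t = N := if_pos h

theorem cnt_hi {t : ℕ} (h : 5 < t) (h' : t < 12) : cnt N M t = M := by
  unfold cnt
  rw [if_neg (by omega), if_neg (by omega), if_pos h']

theorem cnt_mid : cnt N M 5 = 1 := rfl

/-- a witness in a pair of twins -/
theorem Lab.Good.wit {L : Lab G N M X} {D : Set V} (h : L.Good D) {t t' i : ℕ}
    (htt : (t, t') ∈ pr) (hi : i < cnt N M t) :
    ∃ z ∈ D, ∃ s, (s = t ∨ s = t') ∧ L.lab z = (s, i) := by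
  rcases h.twin t t' i htt hi with ⟨z, hz, h⟩ | ⟨z, hz, h⟩
  · exact ⟨z, hz, t, Or.inl rfl, h⟩
  · exact ⟨z, hz, t', Or.inr rfl, h⟩

theorem Lab.Good.sep {L : Lab G N M X} {D : Set V} (h : L.Good D) (hN : 2 ≤ N)
    (hocc : ∀ x < N, ∃ e < M, x ∈ X e) {u v : V} (hu : u ∉ D) (hv : v ∉ D)
    (huv : ∀ z ∈ D, A X (L.lab z) (L.lab u) ↔ A X (L.lab z) (L.lab v)) : u = v := by
  -- twins
  have twin : ∀ {t t' i : ℕ}, (t, t') ∈ pr → i < cnt N M t →
      L.lab u = (t, i) → L.lab v = (t', i) → False := by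
    intro t t' i htt hi h1 h2
    rcases h.twin t t' i htt hi with h3 | h3
    · exact hu (L.mem_of h3 h1)
    · exact hv (L.mem_of h3 h2)
  have twin' : ∀ {t t' i : ℕ}, (t, t') ∈ pr → i < cnt N M t →
      L.lab v = (t, i) → L.lab u = (t', i) → False := by
    intro t t' i htt hi h1 h2
    rcases h.twin t t' i htt hi with h3 | h3
    · exact hv (L.mem_of h3 h1)
    · exact hu (L.mem_of h3 h2)
  by_contra hne
  have hlab : L.lab u ≠ L.lab v := fun h => hne (L.inj h)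
  obtain ⟨hu1, hu2⟩ := L.val u
  obtain ⟨hv1, hv2⟩ := L.val v
  obtain ⟨⟨t, i⟩, hlu⟩ : ∃ a, L.lab u = a := ⟨_, rfl⟩
  obtain ⟨⟨s, j⟩, hlv⟩ : ∃ a, L.lab v = a := ⟨_, rfl⟩
  rw [hlu] at hu1 hu2 hlab
  rw [hlv] at hv1 hv2 hlab
  simp only at hu1 hu2 hv1 hv2
  have hne' : ¬ (t = s ∧ i = j) := by
    rintro ⟨rfl, rfl⟩
    exact hlab rfl
  have huv' : ∀ z ∈ D, A X (L.lab z) (t, i) ↔ A X (L.lab z) (s, j) := by
    intro z hz
    rw [← hlu, ← hlv]
    exact huv z hz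
  -- the type of `u`
  have tx : ∀ {a b : ℕ × ℕ} (x : ℕ), x < N →
      (∀ z ∈ D, A X (L.lab z) a ↔ A X (L.lab z) b) → a = (0, x) → b.1 = 0 ∧ b.2 = x := by
    intro a b x hx hab ha
    obtain ⟨e, he, hxe⟩ := hocc x hx
    obtain ⟨z, hz, r, hr, hlz⟩ := h.wit (t := 3) (t' := 4) (i := x) (by decide)
      (by rw [cnt_lo (by norm_num)]; exact hx)
    obtain ⟨z', hz', r', hr', hlz'⟩ := h.wit (t := 8) (t' := 9) (i := e) (by decide)
      (by rw [cnt_hi (by norm_num) (by norm_num)]; exact he)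
    have h1 := (hab z hz)
    have h2 := (hab z' hz')
    rw [hlz, ha, A_u hr, A_u hr] at h1
    rw [hlz', ha, A_U hr', A_U hr'] at h2
    have h3 := h1.1 (by simp)
    have h4 := h2.1 (by simp [hxe])
    omega
  have t5 : ∀ {a b : ℕ × ℕ},
      (∀ z ∈ D, A X (L.lab z) a ↔ A X (L.lab z) b) → a.1 = 5 → b.1 = 5 := by
    intro a b hab ha
    obtain ⟨z, hz, r, hr, hlz⟩ := h.wit (t := 3) (t' := 4) (i := 0) (by decide)
      (by rw [cnt_lo (by norm_num)]; omega)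
    obtain ⟨z', hz', r', hr', hlz'⟩ := h.wit (t := 3) (t' := 4) (i := 1) (by decide)
      (by rw [cnt_lo (by norm_num)]; omega)
    have h1 := (hab z hz)
    have h2 := (hab z' hz')
    rw [hlz, A_u hr, A_u hr] at h1
    rw [hlz', A_u hr', A_u hr'] at h2
    have h3 := h1.1 (Or.inl ha)
    have h4 := h2.1 (Or.inl ha)
    omega
  by_cases c34 : t = 3 ∨ t = 4
  · have hi : i < N := by rwa [cnt_lo (by omega)] at hu2
    obtain ⟨z, hz, r, hr, hlz⟩ := h.wit (t := 1) (t' := 2) (i := i) (by decide)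
      (by rw [cnt_lo (by norm_num)]; exact hi)
    have h1 := huv' z hz
    rw [hlz, A_p hr, A_p hr] at h1
    have h3 := h1.1 ⟨c34, rfl⟩
    simp only at h3
    obtain ⟨h3, rfl⟩ := h3
    rcases c34 with rfl | rfl <;> rcases h3 with rfl | rfl
    · exact hne' ⟨rfl, rfl⟩
    · exact twin (by decide) hu2 hlu hlv
    · exact twin' (by decide) hv2 hlv hlu
    · exact hne' ⟨rfl, rfl⟩
  by_cases c8 : t = 8 ∨ t = 9 ∨ t = 10 ∨ t = 11
  · have hi : i < M := by rwa [cnt_hi (by omega) (by omega)] at hu2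
    obtain ⟨z, hz, r, hr, hlz⟩ := h.wit (t := 6) (t' := 7) (i := i) (by decide)
      (by rw [cnt_hi (by norm_num) (by norm_num)]; exact hi)
    have h1 := huv' z hz
    rw [hlz, A_P hr, A_P hr] at h1
    have h3 := h1.1 ⟨c8, rfl⟩
    simp only at h3
    obtain ⟨h3, rfl⟩ := h3
    -- a vertex of the second pair and one of the third pair
    have key : ∀ (a b : V) (r r' : ℕ), a ∉ D → b ∉ D →
        (∀ z ∈ D, A X (L.lab z) (L.lab a) ↔ A X (L.lab z) (L.lab b)) →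
        (r = 8 ∨ r = 9) → (r' = 10 ∨ r' = 11) → L.lab a = (r, j) → L.lab b = (r', j) → False := by
      intro a b r r' ha hb hab hr hr' hla hlb
      rcases h.edge j hi with ⟨x, hx, ⟨z, hz, hlz⟩⟩ | ⟨h8, h9⟩ | ⟨h8, h9⟩
      · have h5 := (hab z hz).1
        rw [hlz, hla, hlb, A_x, A_x] at h5
        have h6 := h5 (Or.inr ⟨hr, hx⟩)
        simp only at h6
        omega
      · rcases hr with rfl | rfl
        · exact ha (L.mem_of h8 hla)
        · exact ha (L.mem_of h9 hla)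
      · rcases hr' with rfl | rfl
        · exact hb (L.mem_of h8 hlb)
        · exact hb (L.mem_of h9 hlb)
    by_cases ct : t = 8 ∨ t = 9
    · by_cases cs : s = 8 ∨ s = 9
      · rcases ct with rfl | rfl <;> rcases cs with rfl | rfl
        · exact hne' ⟨rfl, rfl⟩
        · exact twin (by decide) hu2 hlu hlv
        · exact twin' (by decide) hv2 hlv hlu
        · exact hne' ⟨rfl, rfl⟩
      · exact key u v t s hu hv huv ct (by omega) hlu hlv
    · by_cases cs : s = 8 ∨ s = 9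
      · exact key v u s t hv hu (fun z hz => (huv z hz).symm) cs (by omega) hlv hlu
      · have ct' : t = 10 ∨ t = 11 := by omega
        have cs' : s = 10 ∨ s = 11 := by omega
        rcases ct' with rfl | rfl <;> rcases cs' with rfl | rfl
        · exact hne' ⟨rfl, rfl⟩
        · exact twin (by decide) hu2 hlu hlv
        · exact twin' (by decide) hv2 hlv hlu
        · exact hne' ⟨rfl, rfl⟩
  by_cases c6 : t = 6 ∨ t = 7
  · have hi : i < M := by rwa [cnt_hi (by omega) (by omega)] at hu2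
    obtain ⟨z, hz, r, hr, hlz⟩ := h.wit (t := 10) (t' := 11) (i := i) (by decide)
      (by rw [cnt_hi (by norm_num) (by norm_num)]; exact hi)
    have h1 := huv' z hz
    rw [hlz, A_W hr, A_W hr] at h1
    have h3 := h1.1 ⟨c6, rfl⟩
    simp only at h3
    obtain ⟨h3, rfl⟩ := h3
    rcases c6 with rfl | rfl <;> rcases h3 with rfl | rfl
    · exact hne' ⟨rfl, rfl⟩
    · exact twin (by decide) hu2 hlu hlv
    · exact twin' (by decide) hv2 hlv hlu
    · exact hne' ⟨rfl, rfl⟩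
  by_cases c0 : t = 0
  · subst c0
    have hi : i < N := by rwa [cnt_lo (by omega)] at hu2
    have h1 := tx i hi huv' rfl
    simp only at h1
    exact hne' ⟨h1.1.symm, h1.2.symm⟩
  by_cases c5 : t = 5
  · subst c5
    have h1 := t5 huv' rfl
    simp only at h1
    subst h1
    rw [cnt_mid] at hu2 hv2
    exact hne' ⟨rfl, by omega⟩
  have c12 : t = 1 ∨ t = 2 := by omega
  have hi : i < N := by rwa [cnt_lo (by omega)] at hu2
  obtain ⟨z, hz, r, hr, hlz⟩ := h.wit (t := 3) (t' := 4) (i := i) (by decide)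
    (by rw [cnt_lo (by norm_num)]; exact hi)
  have h1 := huv' z hz
  rw [hlz, A_u hr, A_u hr] at h1
  have h3 := h1.1 (Or.inr ⟨Or.inr c12, rfl⟩)
  simp only at h3
  rcases h3 with h3 | ⟨h3, rfl⟩
  · have h4 := t5 (fun z hz => (huv' z hz).symm) h3
    simp only at h4
    omega
  · rcases h3 with rfl | h3
    · have h4 := tx j hi (fun z hz => (huv' z hz).symm) rfl
      simp only at h4
      omega
    · rcases c12 with rfl | rfl <;> rcases h3 with rfl | rfl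
      · exact hne' ⟨rfl, rfl⟩
      · exact twin (by decide) hu2 hlu hlv
      · exact twin' (by decide) hv2 hlv hlu
      · exact hne' ⟨rfl, rfl⟩

theorem Lab.Good.dom {L : Lab G N M X} {D : Set V} (h : L.Good D) (hN : 2 ≤ N) (v : V) :
    ∃ z ∈ D, A X (L.lab z) (L.lab v) := by
  obtain ⟨⟨t, i⟩, hlv⟩ : ∃ a, L.lab v = a := ⟨_, rfl⟩
  obtain ⟨h1, h2⟩ := L.val v
  rw [hlv] at h1 h2
  simp only at h1 h2
  rw [hlv]
  by_cases c34 : t = 3 ∨ t = 4
  · obtain ⟨z, hz, r, hr, hlz⟩ := h.wit (t := 1) (t' := 2) (i := i) (by decide)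
      (by rw [cnt_lo (by norm_num)]; rwa [cnt_lo (by omega)] at h2)
    exact ⟨z, hz, by rw [hlz, A_p hr]; exact ⟨c34, rfl⟩⟩
  by_cases c8 : t = 8 ∨ t = 9 ∨ t = 10 ∨ t = 11
  · obtain ⟨z, hz, r, hr, hlz⟩ := h.wit (t := 6) (t' := 7) (i := i) (by decide)
      (by rw [cnt_hi (by norm_num) (by norm_num)]; rwa [cnt_hi (by omega) (by omega)] at h2)
    exact ⟨z, hz, by rw [hlz, A_P hr]; exact ⟨c8, rfl⟩⟩
  by_cases c6 : t = 6 ∨ t = 7
  · obtain ⟨z, hz, r, hr, hlz⟩ := h.wit (t := 10) (t' := 11) (i := i) (by decide)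
      (by rw [cnt_hi (by norm_num) (by norm_num)]; rwa [cnt_hi (by omega) (by omega)] at h2)
    exact ⟨z, hz, by rw [hlz, A_W hr]; exact ⟨c6, rfl⟩⟩
  by_cases c5 : t = 5
  · obtain ⟨z, hz, r, hr, hlz⟩ := h.wit (t := 3) (t' := 4) (i := 0) (by decide)
      (by rw [cnt_lo (by norm_num)]; omega)
    exact ⟨z, hz, by rw [hlz, A_u hr]; exact Or.inl c5⟩
  · obtain ⟨z, hz, r, hr, hlz⟩ := h.wit (t := 3) (t' := 4) (i := i) (by decide)
      (by rw [cnt_lo (by norm_num)]; rwa [cnt_lo (by omega)] at h2)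
    exact ⟨z, hz, by rw [hlz, A_u hr]; exact Or.inr ⟨by simp only; omega, rfl⟩⟩

/-- sets satisfying the condition are locating-dominating -/
theorem Lab.Good.ld {L : Lab G N M X} {D : Set V} (h : L.Good D) (hN : 2 ≤ N)
    (hocc : ∀ x < N, ∃ e < M, x ∈ X e) : IsLD G D := by
  constructor
  · intro v _
    obtain ⟨z, hz, h1⟩ := h.dom hN v
    exact ⟨z, hz, (L.adj' v z).2 h1.symm⟩
  · intro u v hu hv hne heq
    apply hne
    refine h.sep hN hocc hu hv fun z hz => ?_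
    have h1 := Set.ext_iff.1 heq z
    simp only [Set.mem_inter_iff, SimpleGraph.mem_neighborSet, L.adj', hz, and_true] at h1
    unfold A
    rw [or_comm, h1, or_comm]

end Pool.Agent.R550.LC
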